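import Pool.Agent.H413R3.OddT.Alg2

set_option autoImplicit false

/-!
# Odd values of the number of `t`-multipartitions: `T_3 ^ 3 T_5 ^ (m - 2)` of `D ^ (4 sp m + 3)`
-/

namespace Pool.Agent.U448.OddM

open PowerSeries Pool.Agent.H397R2.PP Finset
open Pool.Agent.H307R2.OP Pool.Agent.H307R2.OP.OC
open Pool.Agent.H413R3.OddT

theorem T3_zero (j : ℕ) : Tp 3 (Db ^ (1 + 4 ^ (j + 1))) = 0 := by
  induction j with
  | zero => exact t3h.ini.2.2.1
  | succ j ih =>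
    have h2 := t3h.recu (2 * (j + 1)) 1
    have h3 : (2 : ℕ) ^ (2 * (j + 1)) = 4 ^ (j + 1) := by rw [pow_mul]; norm_num
    have h4 : 4 * (2 : ℕ) ^ (2 * (j + 1)) = 4 ^ (j + 1 + 1) := by
      rw [h3, pow_succ 4 (j + 1)]; ring
    rw [h4, h3, ih, t3h.ini.1, mul_zero, mul_zero, add_zero] at h2
    exact h2

theorem E_sum (k : ℕ) : Tp 3 (Db ^ (3 + 4 ^ (k + 1))) = Db ^ (1 + 4 ^ (k + 1)) +
    ∑ j ∈ range k, Db ^ (2 * sp (2 ^ (j + 1)) + 4 * sp (2 ^ k - 2 ^ (j + 1)) + 1) := by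
  induction k with
  | zero => simpa using t3h.ini.2.2.2
  | succ k ih =>
    have h2 := t3h.recu (2 * (k + 1)) 3
    have h3 : (2 : ℕ) ^ (2 * (k + 1)) = 4 ^ (k + 1) := by rw [pow_mul]; norm_num
    have h4 : 4 * (2 : ℕ) ^ (2 * (k + 1)) = 4 ^ (k + 1 + 1) := by
      rw [h3, pow_succ 4 (k + 1)]; ring
    rw [h4, h3, ih, t3h.ini.2.1] at h2
    rw [h2, sum_range_succ, Nat.sub_self, sp_zero, mul_add, mul_sum, ← pow_add, ← pow_add]
    have h5 : sp (2 ^ (k + 1)) = 4 ^ (k + 1) := by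
      have := PAIR.sp_add (k + 1) 0 (by positivity)
      simpa [sp_zero] using this
    have h6 : ∀ j ∈ range k, Db ^ 4 ^ (k + 1) *
        Db ^ (2 * sp (2 ^ (j + 1)) + 4 * sp (2 ^ k - 2 ^ (j + 1)) + 1) =
        Db ^ (2 * sp (2 ^ (j + 1)) + 4 * sp (2 ^ (k + 1) - 2 ^ (j + 1)) + 1) := by
      intro j hj
      rw [mem_range] at hj
      have h7 : 2 ^ (j + 1) ≤ 2 ^ k := Nat.pow_le_pow_right (by norm_num) (by omega)
      have h8 : 0 < 2 ^ (j + 1) := by positivity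
      have h9 : 2 ^ (k + 1) - 2 ^ (j + 1) = 2 ^ k + (2 ^ k - 2 ^ (j + 1)) := by
        rw [pow_succ 2 k]; omega
      rw [h9, PAIR.sp_add k _ (by omega), ← pow_add]
      congr 1
      rw [pow_succ 4 k]
      ring
    rw [sum_congr rfl h6, h5]
    have e1 : 4 ^ (k + 1) + (1 + 4 ^ (k + 1)) = 2 * 4 ^ (k + 1) + 4 * 0 + 1 := by ring
    have e2 : 4 ^ (k + 1 + 1) + 1 = 1 + 4 ^ (k + 1 + 1) := by ring
    rw [e1, e2]
    ring

theorem hcomm (i n : ℕ) (f : S) : (TO 5 ^ i) ((TO 3 ^ n) f) = (TO 3 ^ n) ((TO 5 ^ i) f) := by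
  have h := ((comm35 heckeFacts).pow_pow n i).eq
  rw [← Module.End.mul_apply, ← Module.End.mul_apply, h]

theorem fil3 : Fil (-1) (TO 3) := (fq_main.q3 3 (by norm_num) (by norm_num)).1
theorem fil5 : Fil (-1) (TO 5) := (fq_main.q5 5 (by norm_num) (by norm_num)).1

theorem term (a m b : ℕ) (hmb : m ≤ b) (hab : a + m = b + 2) :
    (TO 3 ^ 2) ((TO 5 ^ b) (Db ^ (2 * sp a + 4 * sp m + 1))) = if b = m then Db else 0 := by
  have h6 := pair_main a m b hmb
  have e : a + m - b = 2 := by omega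
  rw [e] at h6
  have h5 := Fil_pow fil3 2 _ _ h6
  have h7 : (((2 : ℕ) : ℤ) + ((2 : ℕ) : ℤ) * (-1)).toNat = 0 := by norm_num
  rw [h7] at h5
  have h8 := WW_zero h5
  rw [map_add] at h8
  by_cases h : b = m
  · rw [if_pos h] at h8 ⊢
    have ha : a = 2 := by omega
    subst ha
    rw [(p3 t3h) 2] at h8
    have h9 := add_self Db
    generalize (TO 3 ^ 2) ((TO 5 ^ b) (Db ^ (2 * sp 2 + 4 * sp m + 1))) = Z at h8 ⊢
    calc Z = (Z + Db) + Db := by
          rw [add_assoc, h9, add_zero]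
      _ = Db := by rw [h8, zero_add]
  · rw [if_neg h] at h8 ⊢
    rwa [map_zero, add_zero] at h8

theorem base3 (k : ℕ) (hk : 1 ≤ k) :
    (TO 5 ^ (2 ^ k - 2)) ((TO 3 ^ 3) (Db ^ (4 * sp (2 ^ k) + 3))) = Db := by
  have h5 : sp (2 ^ k) = 4 ^ k := by
    have := PAIR.sp_add k 0 (by positivity)
    simpa [sp_zero] using this
  have hexp : 4 * sp (2 ^ k) + 3 = 3 + 4 ^ (k + 1) := by rw [h5, pow_succ]; ring
  have h1 : (TO 3 ^ 3) (Db ^ (4 * sp (2 ^ k) + 3)) =
      (TO 3 ^ 2) (Tp 3 (Db ^ (3 + 4 ^ (k + 1)))) := by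
    rw [pow_succ (TO 3) 2, Module.End.mul_apply, hexp]
    rfl
  have h2k : 2 ≤ 2 ^ k := by
    calc 2 = 2 ^ 1 := by norm_num
      _ ≤ 2 ^ k := Nat.pow_le_pow_right (by norm_num) hk
  rw [h1, E_sum, map_add, map_add]
  have h2 : (TO 3 ^ 2) (Db ^ (1 + 4 ^ (k + 1))) = 0 := by
    rw [pow_succ (TO 3) 1, Module.End.mul_apply]
    have : (TO 3) (Db ^ (1 + 4 ^ (k + 1))) = 0 := T3_zero k
    rw [this, map_zero]
  rw [h2, map_zero, zero_add, hcomm, map_sum, map_sum]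
  have h3 : ∀ j ∈ range k, (TO 3 ^ 2) ((TO 5 ^ (2 ^ k - 2))
      (Db ^ (2 * sp (2 ^ (j + 1)) + 4 * sp (2 ^ k - 2 ^ (j + 1)) + 1))) =
      if j = 0 then Db else 0 := by
    intro j hj
    rw [mem_range] at hj
    have h7 : 2 ^ (j + 1) ≤ 2 ^ k := Nat.pow_le_pow_right (by norm_num) (by omega)
    have h8 : 2 ≤ 2 ^ (j + 1) := by
      calc 2 = 2 ^ 1 := by norm_num
        _ ≤ 2 ^ (j + 1) := Nat.pow_le_pow_right (by norm_num) (by omega)
    rw [term _ _ _ (by omega) (by omega)]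
    by_cases hj0 : j = 0
    · subst hj0
      simp
    · have h9 : 4 ≤ 2 ^ (j + 1) := by
        calc 4 = 2 ^ 2 := by norm_num
          _ ≤ 2 ^ (j + 1) := Nat.pow_le_pow_right (by norm_num) (by omega)
      rw [if_neg hj0, if_neg (by omega)]
  rw [sum_congr rfl h3, sum_ite_eq' (range k) 0 (fun _ => Db), if_pos (mem_range.2 hk)]

theorem g3_mem (m : ℕ) : Db ^ (4 * sp m + 3) ∈ NIL.WW (m + 2) := by
  have h := NIL.WW_mem (c := m + 2) (j := sp 1 + 2 * sp m) (by rw [cont_code]; omega)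
  have hsp1 : sp 1 = 1 := by
    have := sp_two_mul_add 0 1 (by norm_num)
    rw [mul_zero, zero_add, sp_zero] at this
    exact this
  have e : 2 * (sp 1 + 2 * sp m) + 1 = 4 * sp m + 3 := by rw [hsp1]; ring
  rw [e] at h
  exact h

theorem l5a (k m : ℕ) (hm : m + 2 ≤ 2 ^ k) :
    (TO 5 ^ (2 ^ k)) (Db ^ (4 * sp (2 ^ k + m) + 3)) + Db ^ (4 * sp m + 3) ∈ NIL.WW (m + 1) := by
  have hUP : (TO 5 ^ (2 ^ k)) (Db ^ (4 * sp m + 3)) = 0 :=
    PAIR.T_zero t5g_main hm (g3_mem m)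
  have h4 := t5k_main.kb k (m + 2) _ (g3_mem m)
  rw [LinearMap.add_apply, LinearMap.add_apply, Module.End.mul_apply, Module.End.mul_apply,
    Module.End.one_apply, hUP, map_zero, add_zero, PAIR.MD_pow] at h4
  have e1 : 4 ^ (k + 1) + (4 * sp m + 3) = 4 * sp (2 ^ k + m) + 3 := by
    rw [PAIR.sp_add k m (by omega), pow_succ]; ring
  rw [e1] at h4
  exact NIL.WW_mono (by omega) h4

/-- `T_3 ^ 3 T_5 ^ (m - 2)` for even `m` -/
theorem three_three (m : ℕ) : m % 2 = 0 → 2 ≤ m →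
    (TO 5 ^ (m - 2)) ((TO 3 ^ 3) (Db ^ (4 * sp m + 3))) = Db := by
  induction m using Nat.strong_induction_on with
  | _ m ih =>
    intro hev hm2
    set k := Nat.log 2 m with hk
    have h1 : 2 ^ k ≤ m := Nat.pow_log_le_self 2 (by omega)
    have h2 : m < 2 ^ (k + 1) := Nat.lt_pow_succ_log_self (by norm_num) m
    have hk1 : 1 ≤ k := Nat.log_pos (by norm_num) (by omega)
    rw [pow_succ] at h2
    obtain ⟨m1, hm1⟩ : ∃ m1, m = 2 ^ k + m1 := ⟨m - 2 ^ k, by omega⟩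
    have hm1lt : m1 < 2 ^ k := by omega
    have h2k : 2 ^ k % 2 = 0 := by
      obtain ⟨k', hk'⟩ : ∃ k', k = k' + 1 := ⟨k - 1, by omega⟩
      rw [hk', pow_succ]; omega
    have h2k2 : 2 ≤ 2 ^ k := by
      calc 2 = 2 ^ 1 := by norm_num
        _ ≤ 2 ^ k := Nat.pow_le_pow_right (by norm_num) hk1
    rcases Nat.eq_zero_or_pos m1 with h3 | h3
    · rw [hm1, h3, add_zero]
      exact base3 k hk1
    · have ih' := ih m1 (by omega) (by omega) (by omega)
      have hl := l5a k m1 (by omega)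
      rw [hcomm] at ih' ⊢
      have e1 : m - 2 = (m1 - 2) + 2 ^ k := by omega
      rw [e1, pow_add, Module.End.mul_apply, hm1]
      set w := (TO 5 ^ 2 ^ k) (Db ^ (4 * sp (2 ^ k + m1) + 3)) + Db ^ (4 * sp m1 + 3) with hw
      have e3 : (TO 5 ^ 2 ^ k) (Db ^ (4 * sp (2 ^ k + m1) + 3)) =
          w + Db ^ (4 * sp m1 + 3) := by
        rw [hw, add_assoc, add_self, add_zero]
      rw [e3, map_add, map_add, ih']
      have h5 := Fil_mul (Fil_pow fil3 3) (Fil_pow fil5 (m1 - 2)) _ _ hl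
      have h6 : (((m1 + 1 : ℕ) : ℤ) + (((3 : ℕ) : ℤ) * (-1) + ((m1 - 2 : ℕ) : ℤ) * (-1))).toNat
          = 0 := by
        omega
      rw [h6] at h5
      have h7 := WW_zero h5
      rw [Module.End.mul_apply] at h7
      rw [h7, zero_add]

/-- the coefficients at the products of primes, three of them `≡ 3 (mod 8)` -/
theorem ocT3 (m : ℕ) (hev : m % 2 = 0) (hm2 : 2 ≤ m) (s : Finset ℕ)
    (hs : ∀ q ∈ s, q.Prime ∧ (q % 8 = 3 ∨ q % 8 = 5))
    (hcard : s.card = 1 + m) (h3 : (s.filter (fun q => q % 8 = 3)).card = 3) :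
    coeff (∏ q ∈ s, q) (Db ^ (2 * sp 1 + 4 * sp m + 1)) = 1 := by
  have hsp1 : sp 1 = 1 := by
    have := sp_two_mul_add 0 1 (by norm_num)
    rw [mul_zero, zero_add, sp_zero] at this
    exact this
  have hJ0 : 2 * sp 1 + 4 * sp m + 1 = 4 * sp m + 3 := by rw [hsp1]; ring
  rw [hJ0]
  set l := s.toList with hl'
  have hlen : l.length = 1 + m := by rw [hl', Finset.length_toList, hcard]
  have hprod : ∏ q ∈ s, q = l.prod := by
    rw [hl']
    have := Finset.prod_map_toList s (fun q => q)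
    rw [← this, List.map_id']
  have hmem : ∀ q ∈ l, q.Prime ∧ (q % 8 = 3 ∨ q % 8 = 5) := by
    intro q hq'
    exact hs q (Finset.mem_toList.1 hq')
  have hcount : (l.countP fun q => q % 8 = 3) = 3 := by
    have h3' := h3
    rw [Finset.card_def, Finset.filter_val, ← Multiset.countP_eq_card_filter,
      ← Finset.coe_toList s, Multiset.coe_countP] at h3'
    exact h3'
  set J := 4 * sp m + 3 with hJ
  have hstep1 : coeff (∏ q ∈ s, q) (Db ^ J) = coeff 1 ((l.map TO).prod (Db ^ J)) := by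
    have := coeff_list l (Finset.nodup_toList s) (fun q hq' => (hmem q hq').1) 1 (by
      intro q hq' hdvd
      have h1 := (hmem q hq').1
      have h2 : q = 1 := Nat.dvd_one.1 hdvd
      rw [h2] at h1
      exact Nat.not_prime_one h1) (Db ^ J)
    rw [this, one_mul, hprod]
  have hfW : Db ^ J ∈ NIL.WW (m + 2) := g3_mem m
  have hstep2 : (l.map TO).prod (Db ^ J) = (l.map fun q => TO (rp q)).prod (Db ^ J) := by
    have h1 := fil_diff fq_main l hmem _ _ hfW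
    rw [hlen] at h1
    have h2 : (((m + 2 : ℕ) : ℤ) + (-((1 + m : ℕ) : ℤ) - 1)).toNat = 0 := by omega
    rw [h2] at h1
    have h3 := WW_zero h1
    rw [LinearMap.add_apply] at h3
    have h5 := add_self ((l.map fun q => TO (rp q)).prod (Db ^ J))
    calc (l.map TO).prod (Db ^ J) = ((l.map TO).prod (Db ^ J) +
          (l.map fun q => TO (rp q)).prod (Db ^ J)) + (l.map fun q => TO (rp q)).prod (Db ^ J) := by
          rw [add_assoc, h5, add_zero]
      _ = _ := by rw [h3, zero_add]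
  rw [hstep1, hstep2, prod_rp heckeFacts, hcount, hlen]
  have e5 : 1 + m - 3 = m - 2 := by omega
  rw [e5, Module.End.mul_apply, ← hcomm, three_three m hev hm2]
  exact coeff_one_Db'

end Pool.Agent.U448.OddM
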