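import Pool.Agent.H413R3.OddT.Defs

set_option autoImplicit false

/-!
# Kernels `≡ 5 (mod 12)`: the statements of `Pool.Agent.H307R2.OP.DefsC` for them
-/

namespace Pool.Agent.U448.OddM

open Finset Pool.Agent.H307R2.OP

/-- the squarefree numbers `≡ 5 (mod 12)` -/
def AdmM (δ : ℕ) : Prop := δ % 12 = 5 ∧ Squarefree δ

/-- the symbol `(-δ | q)` as a real number -/
noncomputable def JM (q δ : ℕ) : ℝ := ((jacobiSym (-(δ : ℤ)) q : ℤ) : ℝ)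

theorem JM_val (q δ : ℕ) : JM q δ = -1 ∨ JM q δ = 0 ∨ JM q δ = 1 := by
  unfold JM
  rcases jacobiSym.trichotomy (-(δ : ℤ)) q with h | h | h <;> rw [h] <;> norm_num

/-- `(-δ | q) = (q | δ)` for `q ≡ 1 (mod 4)`, and with a minus sign for `q ≡ 3 (mod 4)` -/
theorem JM_one {q δ : ℕ} (hδ : AdmM δ) (hq : q % 4 = 1) : JM q δ = J q δ := by
  have h1 := hδ.1
  have hδo : Odd δ := Nat.odd_iff.mpr (by omega)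
  have hqo : Odd q := Nat.odd_iff.mpr (by omega)
  unfold JM J
  rw [jacobiSym.neg _ hqo, ZMod.χ₄_nat_one_mod_four hq, one_mul,
    jacobiSym.quadratic_reciprocity_one_mod_four hq hδo]

theorem JM_three {q δ : ℕ} (hδ : AdmM δ) (hq : q % 4 = 3) : JM q δ = -J q δ := by
  have h1 := hδ.1
  have hδ4 : δ % 4 = 1 := by omega
  have hqo : Odd q := Nat.odd_iff.mpr (by omega)
  unfold JM J
  rw [jacobiSym.neg _ hqo, ZMod.χ₄_nat_three_mod_four hq,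
    jacobiSym.quadratic_reciprocity_one_mod_four hδ4 hqo]
  push_cast
  ring

theorem mem_PB_mod {i c p : ℕ} (h : p ∈ PB i c) : p % 8 = c := by
  unfold PB at h
  exact (Finset.mem_filter.1 h).2.2

/-- the biases of the two symbols agree -/
theorem abs_sum_PB {δ : ℕ} (hδ : AdmM δ) (i c : ℕ) (hc : c ∈ ({1, 3, 5, 7} : Finset ℕ)) :
    |∑ p ∈ PB i c, JM p δ / p| = |∑ p ∈ PB i c, J p δ / p| := by
  have hc' : c = 1 ∨ c = 3 ∨ c = 5 ∨ c = 7 := by simpa using hc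
  have h15 : c % 4 = 1 → ∑ p ∈ PB i c, JM p δ / p = ∑ p ∈ PB i c, J p δ / p := by
    intro h
    refine Finset.sum_congr rfl fun p hp => ?_
    have := mem_PB_mod hp
    rw [JM_one hδ (by omega)]
  have h37 : c % 4 = 3 → ∑ p ∈ PB i c, JM p δ / p = -∑ p ∈ PB i c, J p δ / p := by
    intro h
    rw [← Finset.sum_neg_distrib]
    refine Finset.sum_congr rfl fun p hp => ?_
    have := mem_PB_mod hp
    rw [JM_three hδ (by omega)]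
    ring
  rcases hc' with rfl | rfl | rfl | rfl
  · rw [h15 (by norm_num)]
  · rw [h37 (by norm_num), abs_neg]
  · rw [h15 (by norm_num)]
  · rw [h37 (by norm_num), abs_neg]

/-- task QR -/
structure QRStmt : Prop where
  val : ∀ q δ : ℕ, JM q δ = -1 ∨ JM q δ = 0 ∨ JM q δ = 1
  kill : ∀ r δ N q : ℕ, AdmM δ → q.Prime → 5 ≤ q → JM q δ = -1 → q ∣ N → ¬ q ^ 2 ∣ N → ¬ Rep r δ N
  om_card : ∀ r δ s q : ℕ, AdmM δ → q.Prime → 5 ≤ q → ¬ q ∣ s →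
    ((Om r δ s q).card : ℝ) = 1 + JM q δ
  om_zero : ∀ r δ s q : ℕ, AdmM δ → q.Prime → 5 ≤ q → q ∣ s → Om r δ s q = {0}

open Classical in
/-- task BAD, the form that is used -/
def BadAtCount : Prop := ∀ I i Δ m : ℕ, 1 ≤ I → 1 ≤ i → 1 ≤ m → Δ ^ 3 ≤ 2 ^ ((i + 1) * m) →
  (((Icc 1 Δ).filter (fun δ => AdmM δ ∧ BadAt I i δ)).card : ℝ) ≤ 16 * (2 * m * (I : ℝ) ^ 4) ^ m

/-- task STR: at most two strongly biased kernels -/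
def StrongStmt : Prop := ∃ C : ℕ, ∀ i Δ δ1 δ2 δ3 : ℕ, C ≤ i → Δ ^ C ≤ 2 ^ i →
  AdmM δ1 → AdmM δ2 → AdmM δ3 → δ1 ≤ Δ → δ2 ≤ Δ → δ3 ≤ Δ → δ1 ≠ δ2 → δ1 ≠ δ3 → δ2 ≠ δ3 →
  StrongAt i δ1 → StrongAt i δ2 → StrongAt i δ3 → False

/-- task KP: a small killing prime -/
def KillPrime : Prop := ∃ C : ℕ, ∀ δ : ℕ, AdmM δ → ∃ q : ℕ, q.Prime ∧ 5 ≤ q ∧
  (q % 8 = 3 ∨ q % 8 = 5) ∧ JM q δ = -1 ∧ q ≤ C * δ ^ C

open Classical in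
/-- task FIX: the number of `u` for a fixed choice of the small primes -/
def FixStmt : Prop := ∀ (r δ s U D z K : ℕ) (A P : Finset ℕ), AdmM δ → 1 ≤ D →
  (∀ q ∈ A, q.Prime ∧ 5 ≤ q) → (∀ p ∈ P, p.Prime ∧ 64 ≤ p ∧ p ≤ z ∧ p ∉ A) → z ^ K ≤ D →
  8 * (∑ p ∈ P, ((Om r δ s p).card : ℝ) / p) + 8 ≤ K → (∑ p ∈ P, (4 : ℝ) / p ^ 2) ≤ 1 →
  (((range (U + 1)).filter (fun u => ∃ p : ℕ, p.Prime ∧ z < p ∧ p ∉ A ∧
      3 * ((∏ q ∈ A, q) * p) = δ * s ^ 2 + 4 ^ r * u ^ 2)).card : ℝ) ≤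
    (∏ q ∈ A, (1 + JM q δ)) * (16 * ((U : ℝ) / (∏ q ∈ A, (q : ℝ)) + 1) *
      Real.exp (-∑ p ∈ P, ((Om r δ s p).card : ℝ) / p) + (D : ℝ) ^ 6)

/-- task SIG: the sieving mass for a good kernel -/
def SigStmt : Prop := ∃ C : ℝ, 0 < C ∧ ∀ (I i0 i1 r δ s : ℕ) (A : Finset ℕ), 3 ≤ i0 → i0 ≤ i1 →
  i1 ≤ I → I ≤ 2 ^ i0 → AdmM δ → ¬ Bad I i0 δ → 1 ≤ s → s ≤ 2 ^ I → A.card ≤ I →
  (Real.log i1 - Real.log i0 - C ≤ ∑ p ∈ Pr2 i0 i1 \ A, ((Om r δ s p).card : ℝ) / p) ∧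
  (∑ p ∈ Pr2 i0 i1 \ A, ((Om r δ s p).card : ℝ) / p ≤ 2 * Real.log I + C)

open Classical in
/-- task T2: tuples represented by a large kernel -/
def TupLarge : Prop := ∀ (M : ℕ) (g : Cfg M), g.Ok → ∀ δ : ℕ, AdmM δ →
  ((g.Tup.filter (fun t => Rep g.r δ (g.N t))).card : ℝ) ≤
    Real.sqrt (3 * 2 ^ g.I / δ) * 2 ^ (∑ j, g.k j + g.R.card + 1) * (g.U / g.Rp) * g.W

open Classical in
/-- task T3: tuples represented by a small kernel that is not strongly biased -/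
def TupSmall : Prop := ∃ C : ℝ, 0 < C ∧ ∀ (M : ℕ) (g : Cfg M), g.Ok → ∀ δ : ℕ, AdmM δ →
  ∀ (j : Fin M) (θ : ℝ), 0 ≤ θ → θ ≤ 1 →
  ∑ q ∈ (g.Blk j).filter (fun q => J q δ ≠ -1), (1 : ℝ) / q ≤ (1 - θ) * g.S j →
  ((g.Tup.filter (fun t => Rep g.r δ (g.N t))).card : ℝ) ≤
    C * (2 ^ g.I / (g.Rp * g.I)) * g.W * (1 - θ) ^ (g.k j)

/-- task T5: multiplicity of a good value -/
def GoodCount : Prop := ∃ C : ℝ, 0 < C ∧ ∃ I0 : ℕ, ∀ (M : ℕ) (g : Cfg M), g.Ok → I0 ≤ g.I →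
  ∀ i0 : ℕ, 6 ≤ i0 → g.I ≤ 2 ^ i0 → 4000 * i0 * (Nat.log 2 g.I + 1) ≤ g.I →
  (∀ j, i0 ≤ g.κ j ∧ g.κ j ≤ g.I) → ∑ j, g.k j + g.R.card ≤ g.I →
  ∀ δ s : ℕ, AdmM δ → ¬ Bad g.I i0 δ → 1 ≤ s → δ * s ^ 2 ≤ 3 * 2 ^ g.I →
  (((g.Tup ×ˢ range (2 ^ g.I + 1)).filter
      (fun x => 3 * g.N x.1 = δ * s ^ 2 + 4 ^ g.r * x.2 ^ 2)).card : ℝ) ≤
    C * 2 ^ g.R.card * (g.U / g.Rp) *
      (∏ j, ((g.S j + 1 / (g.I : ℝ) ^ 2 + g.R.card / 2 ^ (g.κ j)) ^ g.k j /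
        ((g.k j).factorial : ℝ))) * (i0 * (Nat.log 2 g.I + 1) / g.I)

open Classical in
/-- task F1: the large bad kernels -/
def BadSum : Prop := ∀ M : ℕ, 1 ≤ M → ∃ y0 : ℕ, ∀ y : ℕ, y0 ≤ y → ∀ I : ℕ,
  y ^ (2 * M + 4) ≤ I → I ≤ 2 * y ^ (2 * M + 4) →
  ∑ δ ∈ (Icc 1 (3 * 2 ^ I)).filter
      (fun δ => AdmM δ ∧ Bad I y δ ∧ 2 ^ (8 * y ^ (2 * M - 1)) < δ), 1 / Real.sqrt δ ≤
    1 / (2 : ℝ) ^ (2 * y ^ (2 * M - 1))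

open Classical in
/-- task F2: the number of the small bad kernels -/
def BadNum : Prop := ∀ M : ℕ, 1 ≤ M → ∀ η : ℝ, 0 < η → ∃ y0 : ℕ, ∀ y : ℕ, y0 ≤ y → ∀ I : ℕ,
  y ^ (2 * M + 4) ≤ I → I ≤ 2 * y ^ (2 * M + 4) →
  (((Icc 1 (2 ^ (8 * y ^ (2 * M - 1)))).filter (fun δ => AdmM δ ∧ Bad I y δ)).card : ℝ) ≤
    (2 : ℝ) ^ (η * (y : ℝ) ^ (2 * M - 1)) ∧
  ∀ j : ℕ, j + 1 < M →
    (((Icc 1 (2 ^ (8 * y ^ (2 * M - 1)))).filter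
      (fun δ => AdmM δ ∧ BadAt I (kap M y (j + 1)) δ)).card : ℝ) ≤
    (2 : ℝ) ^ (η * (y : ℝ) ^ (2 * j + 1))

/-- the properties of the fixed primes `R` -/
structure RCT (M y I K : ℕ) (R : Finset ℕ) : Prop where
  card : R.card ≤ K
  pr : ∀ q ∈ R, q.Prime ∧ 5 ≤ q ∧ (q % 8 = 3 ∨ q % 8 = 5)
  le : ∏ q ∈ R, q ≤ 2 ^ (I / 16)
  kills : ∀ δ : ℕ, AdmM δ → δ ≤ 2 ^ (8 * y ^ (2 * M - 1)) → StrongAt (kap M y 0) δ →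
    ∃ q ∈ R, JM q δ = -1

end Pool.Agent.U448.OddM
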